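import Pool.Agent.H752.NX.Stubs
import Pool.Agent.H620R2.Gauge.A1
import Pool.Agent.H620R2.Gauge.C

/-!
# X3: enumeration and sizes
-/

namespace Pool.Agent.H752.NX

open Pool.Agent.NPC Pool.Agent.H620R2.Gauge Pool.Agent.H752.GE Polynomial

theorem X3_poly_le (P : Polynomial ℕ) : ∃ c : ℕ, ∀ m, P.eval m ≤ c * (m + 1) ^ c := by
  refine ⟨P.eval 1 + P.natDegree, fun m => ?_⟩
  rw [Polynomial.eval_eq_sum_range, Polynomial.eval_eq_sum_range]
  have h1 : ∀ i ∈ Finset.range (P.natDegree + 1), P.coeff i * m ^ i ≤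
      P.coeff i * 1 ^ i * (m + 1) ^ (P.natDegree) := by
    intro i hi
    rw [one_pow, mul_one]
    refine Nat.mul_le_mul_left _ ?_
    have hi' : i ≤ P.natDegree := by
      have := Finset.mem_range.1 hi
      omega
    calc m ^ i ≤ (m + 1) ^ i := Nat.pow_le_pow_left (by omega) _
      _ ≤ (m + 1) ^ P.natDegree := Nat.pow_le_pow_right (by omega) hi'
  refine (Finset.sum_le_sum h1).trans ?_
  rw [← Finset.sum_mul]
  refine Nat.mul_le_mul (by omega) ?_
  exact Nat.pow_le_pow_right (by omega) (by omega)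

theorem X3_countable : Countable (Alg × Polynomial ℕ) := by
  have h1 : Countable Alg := Alg.countable
  have h2 : Countable (Polynomial ℕ) := by
    have : Function.Injective (fun p : Polynomial ℕ => (p.toFinsupp.coeff : ℕ →₀ ℕ)) := by
      intro p q h
      ext n
      exact DFunLike.congr_fun h n
    exact this.countable
  infer_instance

/-- X3 -/
theorem t_data : St_data := by
  have hc : Countable (Alg × Polynomial ℕ) := X3_countable
  have hne : Nonempty (Alg × Polynomial ℕ) := by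
    exact ⟨(⟨_, CC.const_polyTime [], 0⟩, 0)⟩
  obtain ⟨g, hg⟩ := exists_surjective_nat (Alg × Polynomial ℕ)
  have key : ∀ e : ℕ, ∃ c : ℕ, ∀ m, (g e).1.p.eval m ≤ c * (m + 1) ^ c :=
    fun e => X3_poly_le _
  choose c hc' using key
  refine ⟨g, fun e => C (c e) * ((g e).2 + X + C 3) + X + C (e + 2), hg, ?_, ?_⟩
  · intro e n
    simp only [eval_add, eval_mul, eval_C, eval_X]
    omega
  · intro e n
    refine (hc' e _).trans ?_
    simp only [eval_add, eval_mul, eval_C, eval_X]
    set P := (g e).2.eval n with hP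
    have h1 : 2 * 2 ^ P + 1 + n + 1 ≤ 2 ^ (P + n + 2) := by
      have h2 : n + 4 ≤ 2 ^ (n + 2) := by
        have : n < 2 ^ n := Nat.lt_two_pow_self
        have h3 : 2 ^ (n + 2) = 4 * 2 ^ n := by rw [pow_add]; ring
        have h4 : 1 ≤ 2 ^ n := Nat.one_le_two_pow
        omega
      have h5 : 1 ≤ 2 ^ P := Nat.one_le_two_pow
      calc 2 * 2 ^ P + 1 + n + 1 ≤ 2 ^ P * (n + 4) := by nlinarith
        _ ≤ 2 ^ P * 2 ^ (n + 2) := Nat.mul_le_mul_left _ h2
        _ = 2 ^ (P + n + 2) := by rw [← pow_add]; ring_nf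
    calc c e * (2 * 2 ^ P + 1 + n + 1) ^ c e
        ≤ 2 ^ c e * (2 ^ (P + n + 2)) ^ c e :=
          Nat.mul_le_mul Nat.lt_two_pow_self.le (Nat.pow_le_pow_left h1 _)
      _ = 2 ^ (c e + (P + n + 2) * c e) := by rw [← pow_mul, ← pow_add]
      _ ≤ _ := by
          refine Nat.pow_le_pow_right (by omega) ?_
          nlinarith

end Pool.Agent.H752.NX
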