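import Pool.Agent.H752.NX.Stubs
import Pool.Agent.H620R2.GaugeR.R1

/-!
# X6: the binary search algorithm
-/

namespace Pool.Agent.H752.NX

open Pool.Agent.NPC Pool.Agent.H620R2.Gauge Pool.Agent.H752.GE Polynomial

/-- the next action of the binary search -/
def X6D (P : Polynomial ℕ) (y : List Bool) : List Bool :=
  if P.eval (unpair y).1.length ≤ (unpair y).2.length then
    [true, (unpair y).2.reverse.head?.getD false] else
    false :: pairBits (unpair y).1 ((unpair y).2 ++ [true])

theorem X6_poly (P : Polynomial ℕ) : NPC.Poly (X6D P) := by
  have hx : NPC.Poly (fun y => (unpair y).1) := Poly.fst poly_unpair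
  have ha : NPC.Poly (fun y => (unpair y).2) := Poly.snd poly_unpair
  exact Poly.ite (Poly.decide_le (((UPoly.length hx).eval P).toPoly) (Poly.length ha))
    (Poly.cons (NPC.Poly.const true) (Poly.cons (Poly.head?_getD (Poly.reverse ha) false)
      (NPC.Poly.const [])))
    (Poly.cons (NPC.Poly.const false) (H622R2.poly_pairBits hx
      (Poly.append ha (NPC.Poly.const [true]))))

/-- the algorithm -/
noncomputable def X6Alg (P : Polynomial ℕ) : Alg where
  D := X6D P
  poly := H622R2.polyTime_of_poly_list (X6_poly P)
  p := P + 2

theorem X6_D (P : Polynomial ℕ) (x a : List Bool) : (X6Alg P).D (pairBits x a) =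
    if P.eval x.length ≤ a.length then [true, a.reverse.head?.getD false] else
    false :: pairBits x (a ++ [true]) := by
  change X6D P (pairBits x a) = _
  unfold X6D
  rw [unpair_pairBits]

theorem X6_last (t : List Bool) : t.reverse.head?.getD false = t.getLastD false := by
  rw [List.head?_reverse, List.getLastD_eq_getLast?]

/-- X6 -/
theorem t_alg : St_alg := by
  intro S e
  refine ⟨X6Alg (C 4 * S e + 1), fun B x t ht hB => ?_⟩
  have hL : (C 4 * S e + 1).eval x.length = t.length := by
    rw [ht]
    simp [lX]
  have key : ∀ j k : ℕ, k + j = t.length → ∀ m ≥ j + 1,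
      (X6Alg (C 4 * S e + 1)).run B x m (t.take k) = some [t.getLastD false] := by
    intro j
    induction j with
    | zero =>
      intro k hk m hm
      obtain ⟨m, rfl⟩ : ∃ m', m = m' + 1 := ⟨m - 1, by omega⟩
      have h1 : t.take k = t := List.take_of_length_le (by omega)
      have h2 : (X6Alg (C 4 * S e + 1)).D (pairBits x t) = [true, t.getLastD false] := by
        rw [X6_D, hL, if_pos le_rfl, X6_last]
      rw [h1, Alg.run, h2]
    | succ j ih =>
      intro k hk m hm
      obtain ⟨m, rfl⟩ : ∃ m', m = m' + 1 := ⟨m - 1, by omega⟩
      have hlen : (t.take k).length = k := by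
        rw [List.length_take]
        omega
      have h2 : (X6Alg (C 4 * S e + 1)).D (pairBits x (t.take k)) =
          false :: pairBits x (t.take k ++ [true]) := by
        rw [X6_D, hL, hlen, if_neg (by omega)]
      have h3 : t.take k ++ [B (pairBits x (t.take k ++ [true]))] = t.take (k + 1) := by
        rw [hB k (by omega), List.take_add_one]
        congr 1
        rw [List.getElem?_eq_getElem (by omega), List.getD_eq_getElem _ _ (by omega)]
        rfl
      rw [Alg.run, h2]
      simp only
      rw [h3]
      exact ih (k + 1) (by omega) m (by omega)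
  have h := key t.length 0 (by omega) ((X6Alg (C 4 * S e + 1)).p.eval x.length) (by
    change (C 4 * S e + 1 + 2).eval x.length ≥ _
    rw [eval_add, hL]
    simp)
  rw [List.take_zero] at h
  exact h

end Pool.Agent.H752.NX
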